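import Pool.Agent.Q239.EL.CL

set_option autoImplicit false
set_option linter.unusedSectionVars false

/-! Job NV of project EL: norm and valuations. -/

open Polynomial NumberField IsDedekindDomain Pool.Agent.Q51.EL

noncomputable section

namespace Pool.Agent.Q239.EL

variable {L : Type} [Field L] [NumberField L]

/-- the prime below a place -/
lemma below (v : HeightOneSpectrum (𝓞 L)) : ∃ p f : ℕ, p.Prime ∧ (p : 𝓞 L) ∈ v.asIdeal ∧
    0 < f ∧ Ideal.absNorm v.asIdeal = p ^ f := by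
  have hmax : v.asIdeal.IsMaximal := v.isMaximal
  let _ : Field (𝓞 L ⧸ v.asIdeal) := Ideal.Quotient.field v.asIdeal
  have h0 : Ideal.absNorm v.asIdeal ≠ 0 := by
    rw [Ne, Ideal.absNorm_eq_zero_iff]
    exact v.ne_bot
  have hc : Nat.card (𝓞 L ⧸ v.asIdeal) = Ideal.absNorm v.asIdeal := by
    rw [Ideal.absNorm_apply, Submodule.cardQuot_apply]
  have hfin : Finite (𝓞 L ⧸ v.asIdeal) := Nat.finite_of_card_ne_zero (by rw [hc]; exact h0)
  let _ : Fintype (𝓞 L ⧸ v.asIdeal) := Fintype.ofFinite _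
  have h1 : IsPrimePow (Fintype.card (𝓞 L ⧸ v.asIdeal)) := FiniteField.isPrimePow_card _
  rw [← Nat.card_eq_fintype_card, hc, isPrimePow_nat_iff] at h1
  obtain ⟨p, f, hp, hf, hpf⟩ := h1
  refine ⟨p, f, hp, ?_, hf, hpf.symm⟩
  have h4 : ((Ideal.absNorm v.asIdeal : ℕ) : 𝓞 L) ∈ v.asIdeal := Ideal.absNorm_mem v.asIdeal
  rw [← hpf, Nat.cast_pow] at h4
  exact v.isPrime.mem_of_pow_mem _ h4

/-- two primes in the same place -/
lemma prime_unique {v : HeightOneSpectrum (𝓞 L)} {p q : ℕ} (hp : p.Prime) (hq : q.Prime)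
    (h1 : (p : 𝓞 L) ∈ v.asIdeal) (h2 : (q : 𝓞 L) ∈ v.asIdeal) : p = q := by
  by_contra hne
  have h3 : IsCoprime (p : ℤ) (q : ℤ) := by
    rw [Nat.isCoprime_iff_coprime]
    exact (Nat.coprime_primes hp hq).mpr hne
  obtain ⟨a, b, hab⟩ := h3
  apply v.isPrime.ne_top
  rw [Ideal.eq_top_iff_one]
  have h4 : ((a : 𝓞 L) * p + b * q) = 1 := by exact_mod_cast congrArg (Int.cast : ℤ → 𝓞 L) hab
  rw [← h4]
  exact Ideal.add_mem _ (Ideal.mul_mem_left _ _ h1) (Ideal.mul_mem_left _ _ h2)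

/-- an integer in a place -/
lemma int_mem_iff {v : HeightOneSpectrum (𝓞 L)} {l : ℕ} (hl : l.Prime) (hv : Abv v l) (z : ℤ) :
    (z : 𝓞 L) ∈ v.asIdeal ↔ (l : ℤ) ∣ z := by
  constructor
  · intro h
    by_contra hn
    have h3 : IsCoprime (l : ℤ) z := by
      rw [Int.isCoprime_iff_gcd_eq_one]
      have h5 := (Nat.prime_iff_prime_int.mp hl).coprime_iff_not_dvd.mpr hn
      exact Int.isCoprime_iff_gcd_eq_one.mp h5
    obtain ⟨a, b, hab⟩ := h3
    apply v.isPrime.ne_top
    rw [Ideal.eq_top_iff_one]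
    have h4 : ((a : 𝓞 L) * l + b * z) = 1 := by exact_mod_cast congrArg (Int.cast : ℤ → 𝓞 L) hab
    rw [← h4]
    exact Ideal.add_mem _ (Ideal.mul_mem_left _ _ hv) (Ideal.mul_mem_left _ _ h)
  · rintro ⟨m, rfl⟩
    push_cast
    exact Ideal.mul_mem_right _ _ hv

lemma ab_finite {l : ℕ} (hl : l ≠ 0) : {v : HeightOneSpectrum (𝓞 L) | Abv v l}.Finite := by
  have h1 := Ideal.finite_factors (R := 𝓞 L) (I := Ideal.span {(l : 𝓞 L)})
    (span_ne (by exact_mod_cast hl))
  refine h1.subset ?_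
  intro v hv
  rw [Set.mem_ofPred_eq, Ideal.dvd_iff_le, Ideal.span_singleton_le_iff_mem]
  exact hv

/-- the exponent of `l` in the norm -/
def ph (l : ℕ) (A : Ideal (𝓞 L)) : ℕ := padicValNat l (Ideal.absNorm A)

lemma ph_mul {l : ℕ} [Fact l.Prime] {A B : Ideal (𝓞 L)} (hA : A ≠ 0) (hB : B ≠ 0) :
    ph l (A * B) = ph l A + ph l B := by
  unfold ph
  rw [map_mul, padicValNat.mul]
  · rw [Ne, Ideal.absNorm_eq_zero_iff]; exact hA
  · rw [Ne, Ideal.absNorm_eq_zero_iff]; exact hB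

lemma ph_not {l : ℕ} [hl : Fact l.Prime] {v : HeightOneSpectrum (𝓞 L)} (h : ¬ Abv v l) :
    ph l v.asIdeal = 0 := by
  obtain ⟨p, f, hp, hpv, hf, hpf⟩ := below v
  unfold ph
  rw [hpf]
  apply padicValNat.eq_zero_of_not_dvd
  intro hd
  have h1 := hl.out.dvd_of_dvd_pow hd
  have h2 : l = p := (Nat.prime_dvd_prime_iff_eq hl.out hp).mp h1
  apply h
  rw [h2]
  exact hpv

lemma ph_formula {l : ℕ} [hl : Fact l.Prime] (A : Ideal (𝓞 L)) (hA : A ≠ 0) :
    ph l A = ∑ v ∈ (ab_finite (L := L) hl.out.ne_zero).toFinset, mu v A * ph l v.asIdeal := by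
  classical
  induction A using UniqueFactorizationMonoid.induction_on_prime with
  | h₁ => exact absurd rfl hA
  | h₂ x hx =>
    have h1 : x = 1 := (Ideal.isUnit_iff.mp hx).trans Ideal.one_eq_top.symm
    rw [h1]
    have h2 : ph l (1 : Ideal (𝓞 L)) = 0 := by
      unfold ph
      rw [map_one, padicValNat_one_right]
    rw [h2, eq_comm]
    apply Finset.sum_eq_zero
    intro v _
    rw [mu_one, zero_mul]
  | h₃ a p ha hp ih =>
    obtain ⟨w, rfl⟩ := place_of_prime hp
    rw [ph_mul w.ne_bot ha, ih ha]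
    have h1 : ∀ v ∈ (ab_finite (L := L) hl.out.ne_zero).toFinset,
        mu v (w.asIdeal * a) * ph l v.asIdeal =
          mu v w.asIdeal * ph l v.asIdeal + mu v a * ph l v.asIdeal := by
      intro v _
      rw [mu_mul v w.ne_bot ha, add_mul]
    rw [Finset.sum_congr rfl h1, Finset.sum_add_distrib]
    congr 1
    by_cases hw : Abv w l
    · rw [Finset.sum_eq_single w, mu_self, one_mul]
      · intro v _ hne
        rw [mu_ne hne, zero_mul]
      · intro hn
        exact absurd ((ab_finite hl.out.ne_zero).mem_toFinset.mpr hw) hn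
    · rw [ph_not hw, eq_comm]
      apply Finset.sum_eq_zero
      intro v hv
      have hvl : Abv v l := (ab_finite hl.out.ne_zero).mem_toFinset.mp hv
      have hne : v ≠ w := by
        rintro rfl
        exact hw hvl
      rw [mu_ne hne, zero_mul]

lemma mu_l {l : ℕ} [hl : Fact l.Prime] (hs : Squarefree (Ideal.span {(l : 𝓞 L)}))
    {v : HeightOneSpectrum (𝓞 L)} (hv : Abv v l) : mu v (Ideal.span {(l : 𝓞 L)}) = 1 := by
  have hl0 : (l : 𝓞 L) ≠ 0 := by exact_mod_cast hl.out.ne_zero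
  have h1 : mu v (Ideal.span {(l : 𝓞 L)}) ≠ 0 := by
    rw [← mu_pos_iff (span_ne hl0), Ideal.dvd_iff_le, Ideal.span_singleton_le_iff_mem]
    exact hv
  have h2 : ¬ v.asIdeal ^ 2 ∣ Ideal.span {(l : 𝓞 L)} := by
    intro h
    have h3 := hs v.asIdeal (by rw [← sq]; exact h)
    exact v.prime.not_isUnit h3
  have h4 : ¬ 2 ≤ mu v (Ideal.span {(l : 𝓞 L)}) := by
    intro h
    apply h2
    exact (FiniteMultiplicity.of_prime_left v.prime (span_ne hl0)).pow_dvd_iff_le_multiplicity.mpr h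
  omega

lemma sum_ph {l : ℕ} [hl : Fact l.Prime] (hs : Squarefree (Ideal.span {(l : 𝓞 L)})) :
    ∑ v ∈ (ab_finite (L := L) hl.out.ne_zero).toFinset, ph l v.asIdeal = Module.finrank ℚ L := by
  have hl0 : (l : 𝓞 L) ≠ 0 := by exact_mod_cast hl.out.ne_zero
  have h1 := ph_formula (l := l) (Ideal.span {(l : 𝓞 L)}) (span_ne hl0)
  have h2 : ph l (Ideal.span {(l : 𝓞 L)}) = Module.finrank ℚ L := by
    unfold ph
    rw [Ideal.absNorm_span_natCast, padicValNat.prime_pow, RingOfIntegers.rank]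
  rw [h2] at h1
  rw [h1]
  refine Finset.sum_congr rfl fun v hv => ?_
  rw [mu_l hs ((ab_finite hl.out.ne_zero).mem_toFinset.mp hv), one_mul]

/-- the valuation of the norm of an integral element -/
lemma norm_int_val {l : ℕ} [hl : Fact l.Prime] (x : 𝓞 L) :
    padicValRat l (Algebra.norm ℚ (x : L)) = ph l (Ideal.span {x}) := by
  unfold ph
  rw [Ideal.absNorm_span_singleton, ← Algebra.coe_norm_int, padicValRat.of_int]
  rfl

lemma norm_val {l : ℕ} [hl : Fact l.Prime] {x : L} (hx : x ≠ 0) : ∃ (z : 𝓞 L) (y : L), z ≠ 0 ∧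
    y ≠ 0 ∧ (z : L) = x * y ^ 2 ∧
    Even (padicValRat l (Algebra.norm ℚ x) - ph l (Ideal.span {z})) := by
  obtain ⟨a, b, hb, hab⟩ := exists_ratio x
  have hbL := coe_ne hb
  have ha : a ≠ 0 := by
    rintro rfl
    exact mul_ne_zero hx hbL (by simpa using hab)
  have e1 : ((a * b : 𝓞 L) : L) = x * (b : L) ^ 2 := by
    have e2 : ((a * b : 𝓞 L) : L) = (a : L) * (b : L) := map_mul (algebraMap (𝓞 L) L) a b
    rw [e2, ← hab]
    ring
  refine ⟨a * b, b, mul_ne_zero ha hb, hbL, e1, ?_⟩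
  rw [← norm_int_val, e1, map_mul, map_pow]
  have h1 : Algebra.norm ℚ x ≠ 0 := Algebra.norm_ne_zero_iff.mpr hx
  have h2 : Algebra.norm ℚ (b : L) ≠ 0 := Algebra.norm_ne_zero_iff.mpr hbL
  rw [padicValRat.mul h1 (pow_ne_zero 2 h2), padicValRat.pow]
  exact ⟨-padicValRat l (Algebra.norm ℚ (b : L)), by push_cast; ring⟩

theorem nv : S_NV := by
  classical
  intro L _ _ hn l hl hs x hx
  have : Fact l.Prime := ⟨hl⟩
  obtain ⟨z, y, hz, hy, hzy, hev⟩ := norm_val (l := l) hx
  have hform := ph_formula (l := l) (Ideal.span {z}) (span_ne hz)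
  have hsum := sum_ph (L := L) (l := l) hs
  set V := (ab_finite (L := L) hl.ne_zero).toFinset with hV
  have hVm : ∀ v, v ∈ V ↔ Abv v l := fun v => (ab_finite hl.ne_zero).mem_toFinset
  have hpar : ∀ v e, Par v x e → Even ((mu v (Ideal.span {z}) : ℤ) + e) := by
    intro v e h
    have h1 := par_mul_sq hy h
    rw [← hzy] at h1
    exact par_int hz h1
  constructor
  · intro e he
    have h1 : Even ((ph l (Ideal.span {z}) : ℤ) + e * Module.finrank ℚ L) := by
      rw [hform, ← hsum]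
      push_cast
      rw [Finset.mul_sum, ← Finset.sum_add_distrib]
      apply Finset.even_sum
      intro v hv
      rw [← add_mul]
      exact (hpar v e (he v ((hVm v).mp hv))).mul_right _
    have h2 : Even (e * (Module.finrank ℚ L : ℤ)) := by
      obtain ⟨m, hm⟩ := hn
      rw [hm]
      exact ⟨e * m, by push_cast; ring⟩
    have h3 : Even ((ph l (Ideal.span {z}) : ℤ)) := by
      have := h1.sub h2
      simpa using this
    have := hev.add h3
    simpa using this
  · intro e0 e v0 hv0 hN h0 he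
    have hphv0 : ph l v0.asIdeal = 1 := by
      unfold ph
      rw [hN, padicValNat.self hl.one_lt]
    have hmem : v0 ∈ V := (hVm v0).mpr hv0
    have h1 : Even ((ph l (Ideal.span {z}) : ℤ) + e0 - e + e * Module.finrank ℚ L) := by
      rw [hform, ← hsum]
      rw [← Finset.add_sum_erase V _ hmem, ← Finset.add_sum_erase V _ hmem, hphv0]
      push_cast
      have e1 : ((mu v0 (Ideal.span {z}) : ℤ) * 1 + ∑ x ∈ V.erase v0,
          (mu x (Ideal.span {z}) : ℤ) * (ph l x.asIdeal : ℤ)) + e0 - e +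
          e * (1 + ∑ x ∈ V.erase v0, (ph l x.asIdeal : ℤ)) =
          ((mu v0 (Ideal.span {z}) : ℤ) + e0) + ∑ x ∈ V.erase v0,
          ((mu x (Ideal.span {z}) : ℤ) + e) * (ph l x.asIdeal : ℤ) := by
        simp only [add_mul, Finset.sum_add_distrib]
        rw [← Finset.mul_sum]
        ring
      rw [e1]
      refine (hpar v0 e0 h0).add (Finset.even_sum _ ?_)
      intro v hv
      obtain ⟨hv1, hv2⟩ := Finset.mem_erase.mp hv
      exact (hpar v e (he v ((hVm v).mp hv2) hv1)).mul_right _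
    have h2 : Even (e * (Module.finrank ℚ L : ℤ)) := by
      obtain ⟨m, hm⟩ := hn
      rw [hm]
      exact ⟨e * m, by push_cast; ring⟩
    obtain ⟨a, ha⟩ := h1
    obtain ⟨b, hb⟩ := h2
    obtain ⟨c, hc⟩ := hev
    exact ⟨a - b + c + e, by linarith⟩

end Pool.Agent.Q239.EL
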