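import Pool.Agent.Q239.EL.CL

set_option autoImplicit false
set_option linter.unusedSectionVars false

/-! Job UN of project EL: balancing by squares of units. -/

open Polynomial NumberField IsDedekindDomain Pool.Agent.Q51.EL NumberField.mixedEmbedding

noncomputable section

namespace Pool.Agent.Q239.EL

variable {L : Type} [Field L] [NumberField L]

open scoped Classical in
lemma place_le_norm (w : InfinitePlace L) (x : mixedSpace L) : normAtPlace w x ≤ ‖x‖ := by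
  rw [norm_eq_sup'_normAtPlace]
  exact Finset.le_sup' (fun w => normAtPlace w x) (Finset.mem_univ w)

open scoped Classical in
/-- balancing by units -/
lemma un_aux : ∃ C : ℝ, 0 < C ∧ ∀ α : 𝓞 L, α ≠ 0 →
    ∃ u : (𝓞 L)ˣ, ∀ σ : L →+* ℂ, ‖σ (((α * (u : 𝓞 L) : 𝓞 L)) : L)‖ ≤
      C * ((Ideal.absNorm (Ideal.span {α}) : ℕ) : ℝ) ^ ((1 : ℝ) / Module.finrank ℚ L) := by
  obtain ⟨C, hC⟩ := isBounded_iff_forall_norm_le.mp (fundamentalCone.isBounded_normLeOne L)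
  refine ⟨max C 1, lt_max_of_lt_right one_pos, fun α hα => ?_⟩
  set n := Module.finrank ℚ L with hn
  have hn0 : 0 < n := Module.finrank_pos
  set N : ℝ := ((Ideal.absNorm (Ideal.span {α}) : ℕ) : ℝ) with hN
  have hN0 : 0 < N := by
    have : Ideal.absNorm (Ideal.span {α}) ≠ 0 := by
      rw [Ne, Ideal.absNorm_eq_zero_iff, Ideal.span_singleton_eq_bot]
      exact hα
    rw [hN]
    positivity
  have hnorm : mixedEmbedding.norm (mixedEmbedding L (α : L)) = N := by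
    rw [norm_eq_norm, ← Algebra.coe_norm_int, hN, Ideal.absNorm_span_singleton]
    push_cast
    rw [Nat.cast_natAbs]
    push_cast
    rfl
  obtain ⟨u, hu⟩ := fundamentalCone.exists_unit_smul_mem (K := L)
    (x := mixedEmbedding L (α : L)) (by rw [hnorm]; exact hN0.ne')
  refine ⟨u, fun σ => ?_⟩
  set t : ℝ := N ^ ((1 : ℝ) / n) with ht
  have ht0 : 0 < t := Real.rpow_pos_of_pos hN0 _
  have htn : t ^ n = N := by
    rw [ht, ← Real.rpow_natCast, ← Real.rpow_mul hN0.le, one_div, inv_mul_cancel₀ (by positivity),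
      Real.rpow_one]
  set z : mixedSpace L := mixedEmbedding L ((α * (u : 𝓞 L) : 𝓞 L) : L) with hz
  have hzu : u • mixedEmbedding L (α : L) = z := by
    rw [unitSMul_smul, hz, ← map_mul]
    congr 1
    rw [mul_comm]
    exact (map_mul (algebraMap (𝓞 L) L) α (u : 𝓞 L)).symm
  rw [hzu] at hu
  have hzn : mixedEmbedding.norm z = N := by
    rw [← hzu, unitSMul_smul, map_mul, norm_unit, one_mul, hnorm]
  have h1 : t⁻¹ • z ∈ fundamentalCone.normLeOne L := by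
    rw [fundamentalCone.mem_normLeOne]
    refine ⟨fundamentalCone.smul_mem_of_mem hu (inv_ne_zero ht0.ne'), ?_⟩
    rw [mixedEmbedding.norm_smul, hzn, abs_inv, abs_of_pos ht0, inv_pow, htn, inv_mul_cancel₀ hN0.ne']
  have h2 := hC _ h1
  rw [_root_.norm_smul, Real.norm_eq_abs, abs_inv, abs_of_pos ht0] at h2
  have h3 : ‖z‖ ≤ C * t := by
    rw [inv_mul_le_iff₀ ht0] at h2
    linarith
  have h4 : ‖σ ((α * (u : 𝓞 L) : 𝓞 L) : L)‖ = normAtPlace (InfinitePlace.mk σ) z := by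
    rw [hz, normAtPlace_apply, InfinitePlace.apply]
  rw [h4]
  calc normAtPlace (InfinitePlace.mk σ) z ≤ ‖z‖ := place_le_norm _ _
    _ ≤ C * t := h3
    _ ≤ max C 1 * t := mul_le_mul_of_nonneg_right (le_max_left _ _) ht0.le

/-- the squares of units have finite index -/
lemma sq_finite : Finite ((𝓞 L)ˣ ⧸ (powMonoidHom 2 : (𝓞 L)ˣ →* (𝓞 L)ˣ).range) := by
  have hfg : Group.FG (𝓞 L)ˣ := Group.fg_iff_monoid_fg.mpr inferInstance
  refine CommGroup.finite_of_fg_isMulTorsion _ (fun q => ?_)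
  obtain ⟨u, rfl⟩ := QuotientGroup.mk_surjective q
  rw [isOfFinOrder_iff_pow_eq_one]
  refine ⟨2, by norm_num, ?_⟩
  change (QuotientGroup.mk u : (𝓞 L)ˣ ⧸ (powMonoidHom 2 : (𝓞 L)ˣ →* (𝓞 L)ˣ).range) ^ 2 = 1
  rw [← QuotientGroup.mk_pow, QuotientGroup.eq_one_iff]
  exact ⟨u, rfl⟩

theorem un : S_UN := by
  classical
  intro L _ _
  obtain ⟨C, hC, hu⟩ := un_aux (L := L)
  have hfin : Finite ((𝓞 L)ˣ ⧸ (powMonoidHom 2 : (𝓞 L)ˣ →* (𝓞 L)ˣ).range) := sq_finite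
  let _ := Fintype.ofFinite ((𝓞 L)ˣ ⧸ (powMonoidHom 2 : (𝓞 L)ˣ →* (𝓞 L)ˣ).range)
  set M : ℝ := ∑ q : (𝓞 L)ˣ ⧸ (powMonoidHom 2 : (𝓞 L)ˣ →* (𝓞 L)ˣ).range,
    ∑ σ : L →+* ℂ, ‖σ ((((q.out)⁻¹ : (𝓞 L)ˣ) : 𝓞 L) : L)‖ with hM
  have hM0 : 0 ≤ M := Finset.sum_nonneg fun q _ => Finset.sum_nonneg fun σ _ => norm_nonneg _
  refine ⟨C * (M + 1), by positivity, fun α hα => ?_⟩
  obtain ⟨u, hu⟩ := hu α hα
  set q : (𝓞 L)ˣ ⧸ (powMonoidHom 2 : (𝓞 L)ˣ →* (𝓞 L)ˣ).range := QuotientGroup.mk u with hq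
  have h1 : (q.out)⁻¹ * u ∈ (powMonoidHom 2 : (𝓞 L)ˣ →* (𝓞 L)ˣ).range := by
    rw [← QuotientGroup.eq]
    exact q.out_eq'
  obtain ⟨t, ht⟩ := h1
  have ht' : t ^ 2 = (q.out)⁻¹ * u := ht
  refine ⟨t, fun σ => ?_⟩
  have e1 : α * (t : 𝓞 L) ^ 2 = (α * (u : 𝓞 L)) * (((q.out)⁻¹ : (𝓞 L)ˣ) : 𝓞 L) := by
    have : ((t ^ 2 : (𝓞 L)ˣ) : 𝓞 L) = (t : 𝓞 L) ^ 2 := Units.val_pow_eq_pow_val t 2
    rw [← this, ht', Units.val_mul]
    ring
  have e2 : ((α * (t : 𝓞 L) ^ 2 : 𝓞 L) : L) = ((α * (u : 𝓞 L) : 𝓞 L) : L) *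
      ((((q.out)⁻¹ : (𝓞 L)ˣ) : 𝓞 L) : L) := by
    rw [e1]
    exact map_mul (algebraMap (𝓞 L) L) _ _
  rw [e2, map_mul, norm_mul]
  have h2 : ‖σ ((((q.out)⁻¹ : (𝓞 L)ˣ) : 𝓞 L) : L)‖ ≤ M := by
    have h3 := Finset.single_le_sum (f := fun σ : L →+* ℂ =>
      ‖σ ((((q.out)⁻¹ : (𝓞 L)ˣ) : 𝓞 L) : L)‖) (fun σ _ => norm_nonneg _) (Finset.mem_univ σ)
    have h4 := Finset.single_le_sum (f := fun q : (𝓞 L)ˣ ⧸
      (powMonoidHom 2 : (𝓞 L)ˣ →* (𝓞 L)ˣ).range => ∑ σ : L →+* ℂ,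
      ‖σ ((((q.out)⁻¹ : (𝓞 L)ˣ) : 𝓞 L) : L)‖)
      (fun q _ => Finset.sum_nonneg fun σ _ => norm_nonneg _) (Finset.mem_univ q)
    exact h3.trans h4
  have hN0 : (0 : ℝ) ≤ ((Ideal.absNorm (Ideal.span {α}) : ℕ) : ℝ) ^
      ((1 : ℝ) / Module.finrank ℚ L) := by positivity
  calc ‖σ ((α * (u : 𝓞 L) : 𝓞 L) : L)‖ * ‖σ ((((q.out)⁻¹ : (𝓞 L)ˣ) : 𝓞 L) : L)‖
      ≤ (C * ((Ideal.absNorm (Ideal.span {α}) : ℕ) : ℝ) ^ ((1 : ℝ) / Module.finrank ℚ L)) *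
        (M + 1) := mul_le_mul (hu σ) (h2.trans (by linarith)) (norm_nonneg _) (by positivity)
    _ = _ := by ring

end Pool.Agent.Q239.EL
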