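import Pool.Agent.Q239.EL.NV

set_option autoImplicit false
set_option linter.unusedSectionVars false

/-! Job AP of project EL: approximation of a point of a covering over `ℚ_l`. -/

open Polynomial NumberField IsDedekindDomain Pool.Agent.Q51.EL

noncomputable section

namespace Pool.Agent.Q239.EL

section small

variable {l : ℕ} [hl : Fact l.Prime]

/-- all coefficients are small -/
def Sm (r : ℝ) (P : ℚ_[l][X]) : Prop := ∀ i, ‖P.coeff i‖ ≤ r

lemma Sm.mono {r s : ℝ} {P : ℚ_[l][X]} (h : Sm r P) (hrs : r ≤ s) : Sm s P :=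
  fun i => (h i).trans hrs

lemma Sm.add {r : ℝ} {P Q : ℚ_[l][X]} (hP : Sm r P) (hQ : Sm r Q) : Sm r (P + Q) := by
  intro i
  rw [coeff_add]
  exact (IsUltrametricDist.norm_add_le_max _ _).trans (max_le (hP i) (hQ i))

lemma Sm.neg {r : ℝ} {P : ℚ_[l][X]} (hP : Sm r P) : Sm r (-P) := by
  intro i
  rw [coeff_neg, norm_neg]
  exact hP i

lemma Sm.sub {r : ℝ} {P Q : ℚ_[l][X]} (hP : Sm r P) (hQ : Sm r Q) : Sm r (P - Q) := by
  rw [sub_eq_add_neg]
  exact hP.add hQ.neg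

lemma Sm.mul {r s : ℝ} {P Q : ℚ_[l][X]} (hr : 0 ≤ r) (hs : 0 ≤ s) (hP : Sm r P) (hQ : Sm s Q) :
    Sm (r * s) (P * Q) := by
  intro i
  rw [coeff_mul]
  refine IsUltrametricDist.norm_sum_le_of_forall_le_of_nonneg (mul_nonneg hr hs) fun ij _ => ?_
  rw [norm_mul]
  exact mul_le_mul (hP _) (hQ _) (norm_nonneg _) hr

lemma Sm.C {r : ℝ} {a : ℚ_[l]} (h : ‖a‖ ≤ r) : Sm r (Polynomial.C a) := by
  intro i
  rw [coeff_C]
  split_ifs
  · exact h
  · rw [norm_zero]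
    exact (norm_nonneg _).trans h

lemma Sm.X : Sm 1 (Polynomial.X : ℚ_[l][X]) := by
  intro i
  rw [coeff_X]
  split_ifs
  · rw [norm_one]
  · rw [norm_zero]; exact zero_le_one

lemma sm_exists (P : ℚ_[l][X]) : ∃ r : ℝ, 1 ≤ r ∧ Sm r P := by
  refine ⟨1 + ∑ i ∈ P.support, ‖P.coeff i‖, by
    have := Finset.sum_nonneg (s := P.support) (fun i _ => norm_nonneg (P.coeff i)); linarith, ?_⟩
  intro i
  by_cases hi : i ∈ P.support
  · have : ‖P.coeff i‖ ≤ ∑ i ∈ P.support, ‖P.coeff i‖ :=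
      Finset.single_le_sum (f := fun i => ‖P.coeff i‖) (fun i _ => norm_nonneg _) hi
    linarith
  · rw [notMem_support_iff.mp hi, norm_zero]
    have := Finset.sum_nonneg (s := P.support) (fun i _ => norm_nonneg (P.coeff i))
    linarith

lemma sm_approx (P : ℚ_[l][X]) {ε : ℝ} (hε : 0 < ε) :
    ∃ Q : ℚ[X], Sm ε (P - Q.map (Rat.castHom ℚ_[l])) := by
  choose r hr using fun i => Padic.rat_dense l (P.coeff i) hε
  refine ⟨∑ i ∈ Finset.range (P.natDegree + 1), Polynomial.C (r i) * Polynomial.X ^ i, ?_⟩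
  intro i
  rw [coeff_sub, coeff_map, finsetSum_coeff]
  simp only [coeff_C_mul, coeff_X_pow, mul_ite, mul_one, mul_zero, Finset.sum_ite_eq,
    Finset.mem_range]
  split_ifs with h
  · exact (hr i).le
  · rw [map_zero, sub_zero, coeff_eq_zero_of_natDegree_lt (by omega), norm_zero]
    exact hε.le

lemma rat_den {q : ℚ} (h : ‖(q : ℚ_[l])‖ ≤ 1) : ¬ l ∣ q.den := by
  intro hd
  have h1 : ‖((q.den : ℤ) : ℚ_[l])‖ < 1 := Padic.norm_intCast_lt_one_iff.mpr (by exact_mod_cast hd)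
  have h2 : ¬ (l : ℤ) ∣ q.num := by
    intro hn
    have h3 : l ∣ Nat.gcd q.num.natAbs q.den := Nat.dvd_gcd (Int.natCast_dvd.mp hn) hd
    rw [q.reduced] at h3
    exact hl.out.one_lt.ne' (Nat.dvd_one.mp h3)
  have h3 : ‖((q.num : ℤ) : ℚ_[l])‖ = 1 := by
    have h4 := Padic.norm_int_le_one (p := l) q.num
    exact le_antisymm h4 (not_lt.mp fun h5 => h2 (Padic.norm_intCast_lt_one_iff.mp h5))
  have hden : ((q.den : ℤ) : ℚ_[l]) ≠ 0 := by exact_mod_cast q.den_nz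
  have h4 : (q : ℚ_[l]) * ((q.den : ℤ) : ℚ_[l]) = ((q.num : ℤ) : ℚ_[l]) := by
    have := Rat.mul_den_eq_num q
    exact_mod_cast congrArg (Rat.cast : ℚ → ℚ_[l]) this
  have h5 : ‖(q : ℚ_[l])‖ * ‖((q.den : ℤ) : ℚ_[l])‖ = 1 := by
    rw [← norm_mul, h4, h3]
  have h6 := norm_nonneg ((q.den : ℤ) : ℚ_[l])
  nlinarith [norm_nonneg (q : ℚ_[l])]

end small

section val

variable {L : Type} [Field L] [NumberField L] {l : ℕ} [hl : Fact l.Prime]
  {v : HeightOneSpectrum (𝓞 L)}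

lemma int_coe (z : ℤ) : ((z : 𝓞 L) : L) = (z : L) := by simp

lemma val_int_le (z : ℤ) : v.valuation L (z : L) ≤ 1 := by
  rw [← int_coe]
  exact HeightOneSpectrum.valuation_le_one v (z : 𝓞 L)

lemma val_int_eq (hv : Abv v l) {z : ℤ} (hz : ¬ (l : ℤ) ∣ z) : v.valuation L (z : L) = 1 := by
  rw [← int_coe]
  exact (HeightOneSpectrum.valuation_eq_one_iff_notMem v).mpr
    (fun h => hz ((int_mem_iff hl.out hv z).mp h))

lemma val_int_lt (hv : Abv v l) {z : ℤ} (hz : (l : ℤ) ∣ z) : v.valuation L (z : L) < 1 := by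
  rw [← int_coe]
  exact (HeightOneSpectrum.valuation_lt_one_iff_mem v _).mpr ((int_mem_iff hl.out hv z).mpr hz)

lemma val_l_le (hv : Abv v l) : v.valuation L (l : L) ≤ WithZero.exp (-1 : ℤ) := by
  have hl0 : (l : 𝓞 L) ≠ 0 := by exact_mod_cast hl.out.ne_zero
  have h1 := val_int v hl0
  have e : ((l : 𝓞 L) : L) = (l : L) := by simp
  rw [e] at h1
  rw [h1, WithZero.exp_le_exp]
  have h2 : mu v (Ideal.span {(l : 𝓞 L)}) ≠ 0 := by
    rw [← mu_pos_iff (span_ne hl0), Ideal.dvd_iff_le, Ideal.span_singleton_le_iff_mem]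
    exact hv
  omega

lemma val_rat_le_one (hv : Abv v l) {q : ℚ} (h : ‖(q : ℚ_[l])‖ ≤ 1) :
    v.valuation L (algebraMap ℚ L q) ≤ 1 := by
  have h1 := rat_den h
  have h2 : v.valuation L ((q.den : ℤ) : L) = 1 := val_int_eq hv (by exact_mod_cast h1)
  have h3 : algebraMap ℚ L q * ((q.den : ℤ) : L) = ((q.num : ℤ) : L) := by
    have := congrArg (algebraMap ℚ L) (Rat.mul_den_eq_num q)
    rw [map_mul] at this
    simpa using this
  have h4 : v.valuation L (algebraMap ℚ L q) = v.valuation L ((q.num : ℤ) : L) := by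
    rw [← h3, map_mul, h2, mul_one]
  rw [h4]
  exact val_int_le _

lemma val_rat_le (hv : Abv v l) {q : ℚ} {K : ℕ} (h : ‖(q : ℚ_[l])‖ ≤ ((l : ℝ) ^ K)⁻¹) :
    v.valuation L (algebraMap ℚ L q) ≤ WithZero.exp (-(K : ℤ)) := by
  have hl0 : (l : ℚ) ≠ 0 := by exact_mod_cast hl.out.ne_zero
  have hlp : (0 : ℝ) < (l : ℝ) ^ K := pow_pos (by exact_mod_cast hl.out.pos) K
  have h1 : ‖((q / (l : ℚ) ^ K : ℚ) : ℚ_[l])‖ ≤ 1 := by
    push_cast
    rw [norm_div, norm_pow, Padic.norm_p, inv_pow, div_inv_eq_mul]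
    calc ‖(q : ℚ_[l])‖ * (l : ℝ) ^ K ≤ ((l : ℝ) ^ K)⁻¹ * (l : ℝ) ^ K :=
          mul_le_mul_of_nonneg_right h hlp.le
      _ = 1 := inv_mul_cancel₀ hlp.ne'
  have h2 := val_rat_le_one (L := L) hv h1
  have h3 : algebraMap ℚ L q = algebraMap ℚ L (q / (l : ℚ) ^ K) * (l : L) ^ K := by
    rw [map_div₀, map_pow, map_natCast]
    have : (l : L) ^ K ≠ 0 := pow_ne_zero _ (by exact_mod_cast hl.out.ne_zero)
    field_simp
  rw [h3, map_mul, map_pow]
  calc v.valuation L (algebraMap ℚ L (q / (l : ℚ) ^ K)) * v.valuation L (l : L) ^ K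
      ≤ 1 * WithZero.exp (-1 : ℤ) ^ K :=
        mul_le_mul' h2 (pow_le_pow_left' (val_l_le hv) K)
    _ = WithZero.exp (-(K : ℤ)) := by
        rw [one_mul, ← WithZero.exp_nsmul]
        congr 1
        simp

/-- `θ` is integral outside the leading coefficient -/
lemma val_theta {f : ℤ[X]} {θ : L} (hs : Setup f L θ) (hv : Abv v l)
    (ha : ¬ (l : ℤ) ∣ f.leadingCoeff) : v.valuation L θ ≤ 1 := by
  have h1 : IsIntegral ℤ (f.leadingCoeff • θ) := isIntegral_leadingCoeff_smul f θ hs.root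
  let t : 𝓞 L := ⟨f.leadingCoeff • θ, h1⟩
  have h2 : v.valuation L (t : L) ≤ 1 := HeightOneSpectrum.valuation_le_one v t
  have h3 : (t : L) = (f.leadingCoeff : L) * θ := by
    change f.leadingCoeff • θ = _
    rw [zsmul_eq_mul]
  rw [h3, map_mul, val_int_eq hv ha, one_mul] at h2
  exact h2

lemma val_aeval {θ : L} (hθ : v.valuation L θ ≤ 1) (hv : Abv v l) {K : ℕ} {E : ℚ[X]}
    (h : Sm ((l : ℝ) ^ K)⁻¹ (E.map (Rat.castHom ℚ_[l]))) :
    v.valuation L (aeval θ E) ≤ WithZero.exp (-(K : ℤ)) := by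
  rw [aeval_eq_sum_range]
  refine Valuation.map_sum_le _ fun i _ => ?_
  rw [Algebra.smul_def, map_mul, map_pow]
  have h1 := h i
  rw [coeff_map] at h1
  have h2 := val_rat_le (L := L) hv h1
  calc v.valuation L (algebraMap ℚ L (E.coeff i)) * v.valuation L θ ^ i
      ≤ WithZero.exp (-(K : ℤ)) * 1 := mul_le_mul' h2 (pow_le_one' hθ i)
    _ = _ := mul_one _

end val

/-- normalisation of a nonzero vector -/
lemma normalize {l : ℕ} [hl : Fact l.Prime] {x w : ℚ_[l]} (h : x ≠ 0 ∨ w ≠ 0) :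
    ∃ (k : ℤ) (x0 w0 : ℤ_[l]), x = (l : ℚ_[l]) ^ k * x0 ∧ w = (l : ℚ_[l]) ^ k * w0 ∧
      (‖x0‖ = 1 ∨ ‖w0‖ = 1) := by
  have hl0 : (l : ℚ_[l]) ≠ 0 := by exact_mod_cast hl.out.ne_zero
  have hlR : (0 : ℝ) < l := by exact_mod_cast hl.out.pos
  have key : ∀ a b : ℚ_[l], a ≠ 0 → ‖b‖ ≤ ‖a‖ → ∃ (k : ℤ) (a0 b0 : ℤ_[l]),
      a = (l : ℚ_[l]) ^ k * a0 ∧ b = (l : ℚ_[l]) ^ k * b0 ∧ ‖a0‖ = 1 := by
    intro a b ha hab
    set k := a.valuation with hk
    have h1 : ‖a‖ = (l : ℝ) ^ (-k) := Padic.norm_eq_zpow_neg_valuation ha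
    have h2 : ‖(l : ℚ_[l]) ^ k‖ = (l : ℝ) ^ (-k) := Padic.norm_p_zpow k
    have hk0 : (l : ℚ_[l]) ^ k ≠ 0 := zpow_ne_zero _ hl0
    have hpos : (0 : ℝ) < (l : ℝ) ^ (-k) := zpow_pos hlR _
    have h3 : ‖a / (l : ℚ_[l]) ^ k‖ = 1 := by
      rw [norm_div, h1, h2, div_self hpos.ne']
    have h4 : ‖b / (l : ℚ_[l]) ^ k‖ ≤ 1 := by
      rw [norm_div, h2, div_le_one hpos, ← h1]
      exact hab
    refine ⟨k, ⟨a / (l : ℚ_[l]) ^ k, h3.le⟩, ⟨b / (l : ℚ_[l]) ^ k, h4⟩, ?_, ?_, h3⟩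
    · change a = (l : ℚ_[l]) ^ k * (a / (l : ℚ_[l]) ^ k)
      field_simp
    · change b = (l : ℚ_[l]) ^ k * (b / (l : ℚ_[l]) ^ k)
      field_simp
  by_cases hxw : ‖w‖ ≤ ‖x‖
  · have hx : x ≠ 0 := by
      rintro rfl
      rw [norm_zero] at hxw
      rcases h with h | h
      · exact h rfl
      · exact h (norm_le_zero_iff.mp hxw)
    obtain ⟨k, a, b, h1, h2, h3⟩ := key x w hx hxw
    exact ⟨k, a, b, h1, h2, Or.inl h3⟩
  · push Not at hxw
    have hw : w ≠ 0 := by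
      rintro rfl
      rw [norm_zero] at hxw
      exact absurd hxw (not_lt.mpr (norm_nonneg _))
    obtain ⟨k, a, b, h1, h2, h3⟩ := key w x hw hxw.le
    exact ⟨k, b, a, h2, h1, Or.inr h3⟩

/-- approximation by integers -/
lemma int_approx {l : ℕ} [hl : Fact l.Prime] (x : ℤ_[l]) (n : ℕ) : ∃ z : ℤ,
    ‖((x : ℚ_[l]) - (z : ℚ_[l]))‖ ≤ ((l : ℝ) ^ n)⁻¹ ∧ (‖x‖ = 1 → 0 < n → ¬ (l : ℤ) ∣ z) := by
  have h1 := PadicInt.appr_spec n x
  rw [← PadicInt.norm_le_pow_iff_mem_span_pow] at h1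
  have h2 : ‖((x : ℚ_[l]) - (((PadicInt.appr x n : ℕ) : ℤ) : ℚ_[l]))‖ ≤ ((l : ℝ) ^ n)⁻¹ := by
    have h3 : ((x - (PadicInt.appr x n : ℤ_[l]) : ℤ_[l]) : ℚ_[l]) =
        (x : ℚ_[l]) - (((PadicInt.appr x n : ℕ) : ℤ) : ℚ_[l]) := by push_cast; rfl
    rw [← h3, ← PadicInt.norm_def]
    rw [zpow_neg, zpow_natCast] at h1
    exact h1
  refine ⟨(PadicInt.appr x n : ℕ), h2, fun hx hn hd => ?_⟩
  have h4 : ‖((((PadicInt.appr x n : ℕ) : ℤ)) : ℚ_[l])‖ < 1 := Padic.norm_intCast_lt_one_iff.mpr hd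
  have h5 : ((l : ℝ) ^ n)⁻¹ < 1 := by
    apply inv_lt_one_of_one_lt₀
    exact one_lt_pow₀ (by exact_mod_cast hl.out.one_lt) hn.ne'
  have h6 : ‖(x : ℚ_[l])‖ < 1 := by
    have e : (x : ℚ_[l]) = ((x : ℚ_[l]) - (((PadicInt.appr x n : ℕ) : ℤ) : ℚ_[l])) +
      (((PadicInt.appr x n : ℕ) : ℤ) : ℚ_[l]) := by ring
    rw [e]
    exact lt_of_le_of_lt (IsUltrametricDist.norm_add_le_max _ _) (max_lt (lt_of_le_of_lt h2 h5) h4)
  rw [← PadicInt.norm_def, hx] at h6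
  exact lt_irrefl _ h6

theorem ap : S_AP := by
  intro f L _ _ θ hs l hl ha d ⟨x, w, g, hxw, hdvd⟩ K
  obtain ⟨h, hh⟩ := hdvd
  obtain ⟨k, x0, w0, hx0, hw0, hunit⟩ := normalize hxw
  have hl0 : (l : ℚ_[l]) ≠ 0 := by exact_mod_cast hl.out.ne_zero
  have hlR : (0 : ℝ) < l := by exact_mod_cast hl.out.pos
  -- parity
  obtain ⟨e, k', he, hk⟩ : ∃ (e : ℕ) (k' : ℤ), e < 2 ∧ k = e + 2 * k' := by
    refine ⟨(k % 2).toNat, k / 2, ?_, ?_⟩
    · omega
    · omega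
  set u : ℚ_[l] := (l : ℚ_[l]) ^ (-k') with hu
  set fl := f.map (Int.castRingHom ℚ_[l]) with hfl
  set dl := d.map (Rat.castHom ℚ_[l]) with hdl
  have hlk : (l : ℚ_[l]) ^ k * u ^ 2 = (l : ℚ_[l]) ^ e := by
    rw [hu, hk, ← zpow_natCast ((l : ℚ_[l]) ^ (-k')) 2, ← zpow_mul, ← zpow_add₀ hl0,
      ← zpow_natCast (l : ℚ_[l]) e]
    congr 1
    push_cast
    ring
  have h1 : C ((l : ℚ_[l]) ^ e) * (C (x0 : ℚ_[l]) - C (w0 : ℚ_[l]) * X) - dl * (C u * g) ^ 2 =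
      fl * (C (u ^ 2) * h) := by
    calc C ((l : ℚ_[l]) ^ e) * (C (x0 : ℚ_[l]) - C (w0 : ℚ_[l]) * X) - dl * (C u * g) ^ 2
        = C (u ^ 2) * (C x - C w * X - dl * g ^ 2) := by
          rw [← hlk, hx0, hw0]
          simp only [map_mul, map_pow]
          ring
      _ = _ := by rw [hh]; ring
  set g' := C u * g with hg'
  set h' := C (u ^ 2) * h with hh'
  obtain ⟨rd, hrd1, hrd⟩ := sm_exists dl
  obtain ⟨rg, hrg1, hrg⟩ := sm_exists g'
  have hlK : (0 : ℝ) < ((l : ℝ) ^ K)⁻¹ := inv_pos.mpr (pow_pos hlR K)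
  set ε : ℝ := min 1 (((l : ℝ) ^ K)⁻¹ / (rd * rg)) with hε
  have hrr : 0 < rd * rg := by positivity
  have hε0 : 0 < ε := lt_min one_pos (div_pos hlK hrr)
  have hε1 : ε ≤ 1 := min_le_left _ _
  have hε2 : rd * (ε * rg) ≤ ((l : ℝ) ^ K)⁻¹ := by
    have h2 : ε ≤ ((l : ℝ) ^ K)⁻¹ / (rd * rg) := min_le_right _ _
    rw [le_div_iff₀ hrr] at h2
    linarith
  obtain ⟨G, hG⟩ := sm_approx g' hε0
  obtain ⟨H, hH⟩ := sm_approx h' hlK
  obtain ⟨x1, hx1, hx1'⟩ := int_approx x0 (K + 1)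
  obtain ⟨w1, hw1, hw1'⟩ := int_approx w0 (K + 1)
  refine ⟨x1, w1, e, aeval θ G, he, ?_, fun v hv => ?_⟩
  · rcases hunit with h2 | h2
    · exact Or.inl (hx1' h2 (Nat.succ_pos K))
    · exact Or.inr (hw1' h2 (Nat.succ_pos K))
  · have hKK : ((l : ℝ) ^ (K + 1))⁻¹ ≤ ((l : ℝ) ^ K)⁻¹ := by
      apply inv_anti₀ (pow_pos hlR K)
      exact pow_le_pow_right₀ (by exact_mod_cast hl.out.one_lt.le) (Nat.le_succ K)
    set E : ℚ[X] := C ((l : ℚ) ^ e) * (C (x1 : ℚ) - C (w1 : ℚ) * X) - d * G ^ 2 -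
      f.map (Int.castRingHom ℚ) * H with hE
    have hEθ : aeval θ E = (l : L) ^ e * ((x1 : L) - w1 * θ) - aeval θ d * aeval θ G ^ 2 := by
      have h3 : aeval θ (f.map (Int.castRingHom ℚ)) = 0 := by
        have := hs.root
        rw [← this]
        exact aeval_map_algebraMap ℚ θ f
      rw [hE]
      simp only [map_sub, map_mul, map_pow, aeval_C, aeval_X, h3, zero_mul, sub_zero, map_natCast,
        map_intCast]
    rw [← hEθ]
    apply val_aeval (val_theta hs hv ha) hv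
    have hmap : E.map (Rat.castHom ℚ_[l]) =
        C ((l : ℚ_[l]) ^ e) * (C ((x1 : ℚ_[l]) - x0) - C ((w1 : ℚ_[l]) - w0) * X) +
        (dl * ((g' - G.map (Rat.castHom ℚ_[l])) * (g' + G.map (Rat.castHom ℚ_[l]))) +
        fl * (h' - H.map (Rat.castHom ℚ_[l]))) := by
      have h4 : (f.map (Int.castRingHom ℚ)).map (Rat.castHom ℚ_[l]) = fl := by
        rw [Polynomial.map_map, hfl]
        congr 1
      rw [hE]
      simp only [Polynomial.map_sub, Polynomial.map_mul, Polynomial.map_pow, map_C, map_X, h4,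
        map_pow, map_natCast, map_intCast, map_sub, Polynomial.map_natCast,
        Polynomial.map_intCast]
      have h5 : (dl * g' ^ 2 + fl * h' : ℚ_[l][X]) =
          C ((l : ℚ_[l]) ^ e) * (C (x0 : ℚ_[l]) - C (w0 : ℚ_[l]) * X) := by
        rw [← h1]; ring
      simp only [map_pow, map_natCast] at h5
      linear_combination -h5
    rw [hmap]
    have hX : ∀ {a b : ℚ_[l]} {r : ℝ}, ‖a‖ ≤ r → ‖b‖ ≤ r → 0 ≤ r → Sm r (C a - C b * X) := by
      intro a b r h2 h3 h4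
      refine (Sm.C h2).sub ?_
      have := Sm.mul h4 zero_le_one (Sm.C h3) Sm.X
      rwa [mul_one] at this
    have hle1 : ‖(l : ℚ_[l]) ^ e‖ ≤ 1 := by
      rw [norm_pow]
      exact pow_le_one₀ (norm_nonneg _) (Padic.norm_p_lt_one).le
    refine Sm.add ?_ (Sm.add ?_ ?_)
    · have h2 := Sm.mul zero_le_one hlK.le (Sm.C hle1) (hX
        (a := (x1 : ℚ_[l]) - x0) (b := (w1 : ℚ_[l]) - w0)
        (by rw [norm_sub_rev]; exact hx1.trans hKK) (by rw [norm_sub_rev]; exact hw1.trans hKK)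
        hlK.le)
      rwa [one_mul] at h2
    · have h2 : Sm rg (g' + G.map (Rat.castHom ℚ_[l])) := by
        have h3 : g' + G.map (Rat.castHom ℚ_[l]) =
            (g' + g') - (g' - G.map (Rat.castHom ℚ_[l])) := by ring
        rw [h3]
        exact (hrg.add hrg).sub (hG.mono (hε1.trans hrg1))
      exact (Sm.mul (by linarith) (by positivity) hrd
        (Sm.mul hε0.le (by linarith) hG h2)).mono hε2
    · have h2 : Sm 1 fl := by
        intro i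
        rw [hfl, coeff_map]
        exact Padic.norm_int_le_one _
      have h3 := Sm.mul zero_le_one hlK.le h2 hH
      rwa [one_mul] at h3

end Pool.Agent.Q239.EL
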